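import Pool.Agent.Lib_helper82.CN.Defs

/-! CN, block NC: the discriminant is fundamental. -/

set_option autoImplicit false

namespace Pool.Agent.CN

open NumberField IsDedekindDomain
open Pool.Agent.LK (PQ)

theorem nc_div {K : Type} [Field K] [NumberField K] {x : ℤ} (hx : x ≠ 0) (γ : 𝓞 K) (c : ℤ)
    (h : γ ^ 2 = ((x ^ 2 * c : ℤ) : 𝓞 K)) : ∃ β : 𝓞 K, (x : 𝓞 K) * β = γ := by
  have hx' : (x : K) ≠ 0 := by exact_mod_cast hx
  have h1 : (γ : K) ^ 2 = (x : K) ^ 2 * (c : K) := by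
    have h2 := congrArg (fun z : 𝓞 K => (z : K)) h
    push_cast at h2
    exact h2
  have h3 : ((γ : K) / x) ^ 2 = (c : K) := by
    rw [div_pow, h1]
    field_simp
  have h4 : IsIntegral ℤ ((γ : K) / x) := by
    refine IsIntegral.of_pow (n := 2) (by norm_num) ?_
    rw [h3]
    exact isIntegral_algebraMap (R := ℤ) (A := K) (x := c)
  refine ⟨⟨(γ : K) / x, h4⟩, ?_⟩
  apply RingOfIntegers.coe_injective
  show (x : K) * ((γ : K) / x) = γ
  field_simp

theorem nc_coef {K : Type} [Field K] [NumberField K] {ω : 𝓞 K} {t n : ℤ} (h : QB K ω t n)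
    {x u v : ℤ} {β : 𝓞 K} (hβ : (x : 𝓞 K) * β = (u : 𝓞 K) + (v : 𝓞 K) * ω) : x ∣ v := by
  obtain ⟨a, b, hab⟩ := h.ex β
  have h1 : ((x * a - u : ℤ) : 𝓞 K) + ((x * b - v : ℤ) : 𝓞 K) * ω = 0 := by
    rw [hab] at hβ
    push_cast
    linear_combination hβ
  have h2 := (h.uq _ _ h1).2
  exact ⟨b, by linarith⟩

/-- block NC: the discriminant is fundamental -/
theorem qb_fund {K : Type} [Field K] [NumberField K] {ω : 𝓞 K} {t n : ℤ} (h : QB K ω t n) :
    Fund (discr K) := by
  rw [h.disc]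
  have hsq := h.sq
  constructor
  · intro h1
    have h1' : (t : 𝓞 K) ^ 2 - 4 * (n : 𝓞 K) = 1 := by exact_mod_cast congrArg (Int.cast (R := 𝓞 K)) h1
    have h2 : (((-t - 1 : ℤ) : 𝓞 K) + ((2 : ℤ) : 𝓞 K) * ω) *
        (((-t + 1 : ℤ) : 𝓞 K) + ((2 : ℤ) : 𝓞 K) * ω) = 0 := by
      push_cast
      linear_combination 4 * hsq + h1'
    rcases mul_eq_zero.1 h2 with h3 | h3
    · exact absurd (h.uq _ _ h3).2 (by norm_num)
    · exact absurd (h.uq _ _ h3).2 (by norm_num)
  · rcases Int.even_or_odd' t with ⟨s, hs | hs⟩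
    · right
      have hα : (((-s : ℤ) : 𝓞 K) + ((1 : ℤ) : 𝓞 K) * ω) ^ 2 = ((s ^ 2 - n : ℤ) : 𝓞 K) := by
        have hs' : (t : 𝓞 K) = 2 * (s : 𝓞 K) := by exact_mod_cast congrArg (Int.cast (R := 𝓞 K)) hs
        push_cast
        rw [hs'] at hsq
        linear_combination hsq
      have hsf : Squarefree (s ^ 2 - n) := by
        rintro x ⟨c, hc⟩
        rcases eq_or_ne x 0 with rfl | hx
        · exfalso
          have h1 : (((-s : ℤ) : 𝓞 K) + ((1 : ℤ) : 𝓞 K) * ω) = 0 := by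
            rw [hc] at hα
            have h2 : (((-s : ℤ) : 𝓞 K) + ((1 : ℤ) : 𝓞 K) * ω) ^ 2 = 0 := by
              rw [hα]
              push_cast
              ring
            exact pow_eq_zero_iff (two_ne_zero) |>.1 h2
          exact absurd (h.uq _ _ h1).2 (by norm_num)
        · obtain ⟨β, hβ⟩ := nc_div hx _ c (by rw [hα, hc]; congr 1; ring)
          exact isUnit_of_dvd_one (nc_coef h hβ)
      refine ⟨s ^ 2 - n, by rw [hs]; ring, hsf, ?_⟩
      have h0 : (s ^ 2 - n) % 4 ≠ 0 := by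
        intro h1
        have h2 : (2 : ℤ) * 2 ∣ s ^ 2 - n := by omega
        have h3 := hsf 2 h2
        rw [Int.isUnit_iff] at h3
        omega
      have h1 : (s ^ 2 - n) % 4 ≠ 1 := by
        intro h1
        obtain ⟨c, hc⟩ : ∃ c, s ^ 2 - n = 4 * c + 1 := ⟨(s ^ 2 - n) / 4, by omega⟩
        have hαK : (((-s : ℤ) : K) + ((1 : ℤ) : K) * (ω : K)) ^ 2 = ((s ^ 2 - n : ℤ) : K) := by
          have h2 := congrArg (fun z : 𝓞 K => (z : K)) hα
          push_cast at h2 ⊢
          exact h2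
        have hc' : ((s ^ 2 - n : ℤ) : K) = 4 * (c : K) + 1 := by
          rw [hc]
          push_cast
          ring
        rw [hc'] at hαK
        have h4 : IsIntegral ℤ ((1 + (((-s : ℤ) : K) + ((1 : ℤ) : K) * (ω : K))) / 2) := by
          refine ⟨(Polynomial.X ^ 2 - Polynomial.X - Polynomial.C c : Polynomial ℤ), ?_, ?_⟩
          · monicity!
          · have h7 : (algebraMap ℤ K) c = (c : K) := rfl
            simp only [Polynomial.eval₂_sub, Polynomial.eval₂_pow, Polynomial.eval₂_X,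
              Polynomial.eval₂_C, h7]
            linear_combination (1 / 4) * hαK
        obtain ⟨β, hβ⟩ : ∃ β : 𝓞 K,
            (β : K) = (1 + (((-s : ℤ) : K) + ((1 : ℤ) : K) * (ω : K))) / 2 := ⟨⟨_, h4⟩, rfl⟩
        have h5 : ((2 : ℤ) : 𝓞 K) * β = ((1 - s : ℤ) : 𝓞 K) + ((1 : ℤ) : 𝓞 K) * ω := by
          apply RingOfIntegers.coe_injective
          show ((2 : ℤ) : K) * (β : K) = ((1 - s : ℤ) : K) + ((1 : ℤ) : K) * (ω : K)
          rw [hβ]
          push_cast
          ring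
        have h6 := nc_coef h h5
        omega
      omega
    · left
      have hα : (((-t : ℤ) : 𝓞 K) + ((2 : ℤ) : 𝓞 K) * ω) ^ 2 = ((t ^ 2 - 4 * n : ℤ) : 𝓞 K) := by
        push_cast
        linear_combination 4 * hsq
      have h4 : (t ^ 2 - 4 * n) % 4 = 1 := by
        have : t ^ 2 - 4 * n = 4 * (s ^ 2 + s - n) + 1 := by rw [hs]; ring
        omega
      refine ⟨h4, ?_⟩
      rintro x ⟨c, hc⟩
      rcases eq_or_ne x 0 with rfl | hx
      · exfalso
        rw [hc] at h4
        simp at h4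
      · obtain ⟨β, hβ⟩ := nc_div hx _ c (by rw [hα, hc]; congr 1; ring)
        have h5 := nc_coef h hβ
        have hodd : x % 2 = 1 := by
          rcases Int.even_or_odd' x with ⟨y, hy | hy⟩
          · exfalso
            rw [hc, hy] at h4
            have : 2 * y * (2 * y) * c = 4 * (y * y * c) := by ring
            omega
          · omega
        have h6 : x.natAbs ∣ 2 := Int.natAbs_dvd_natAbs.2 h5
        have h7 : x.natAbs = 1 ∨ x.natAbs = 2 := (Nat.dvd_prime Nat.prime_two).1 h6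
        rw [Int.isUnit_iff]
        omega

end Pool.Agent.CN
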